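import Pool.Agent.ANR.Stmts

set_option autoImplicit false

/-!
# Tank ANR, row CUT: the form with `F` as nodes and the cut form
-/

open scoped BigOperators ComplexConjugate

noncomputable section

namespace Pool.Agent.ANR.H60

theorem cut : CutStmt := by
  intro X _ _ G κ A F f c hs hd hf
  have hFF : ∑ x ∈ F, ∑ y ∈ F, κ x * κ y * ‖G x y‖ ^ 2 * (f x - f y) ^ 2 = 0 := by
    refine Finset.sum_eq_zero fun x hx => Finset.sum_eq_zero fun y hy => ?_
    rw [hf x hx, hf y hy, sub_self]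
    ring
  have hAF : ∑ x ∈ A, ∑ y ∈ F, κ x * κ y * ‖G x y‖ ^ 2 * (f x - f y) ^ 2 =
      ∑ x ∈ A, κ x * fl G κ F x * (f x - c) ^ 2 := by
    refine Finset.sum_congr rfl fun x _ => ?_
    rw [fl, Finset.mul_sum, Finset.sum_mul]
    refine Finset.sum_congr rfl fun y hy => ?_
    rw [hf y hy]
    ring
  have hFA : ∑ x ∈ F, ∑ y ∈ A, κ x * κ y * ‖G x y‖ ^ 2 * (f x - f y) ^ 2 =
      ∑ x ∈ A, κ x * fl G κ F x * (f x - c) ^ 2 := by
    rw [Finset.sum_comm, ← hAF]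
    refine Finset.sum_congr rfl fun x _ => Finset.sum_congr rfl fun y _ => ?_
    rw [hs y x]
    ring
  have hsplit : ∑ x ∈ A ∪ F, ∑ y ∈ A ∪ F, κ x * κ y * ‖G x y‖ ^ 2 * (f x - f y) ^ 2 =
      ∑ x ∈ A, ∑ y ∈ A, κ x * κ y * ‖G x y‖ ^ 2 * (f x - f y) ^ 2 +
      2 * ∑ x ∈ A, κ x * fl G κ F x * (f x - c) ^ 2 := by
    rw [Finset.sum_union hd]
    simp only [Finset.sum_union hd, Finset.sum_add_distrib]
    rw [hAF, hFA, hFF]
    ring
  rw [cE, cE, hsplit]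
  ring

end Pool.Agent.ANR.H60
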