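import Pool.Agent.ANR.Stmts

set_option autoImplicit false

/-!
# Tank ANR, row LVI: the leverage does not see what is inside `F`
-/

open scoped BigOperators ComplexConjugate

noncomputable section

namespace Pool.Agent.ANR.H60

theorem lvi : LviStmt := by
  intro X _ _ H H' κ κ' F x L ho hL ψ hψ
  have h1 : Sol H κ F ψ := by
    intro z hz
    have h2 := hψ z hz
    obtain ⟨h3, h4⟩ := ho z hz
    have h5 : opv H κ ψ z = opv H' κ' ψ z := by
      simp only [opv, h3, h4]
    rw [h5]
    exact h2
  have h2 : Q κ' F ψ = Q κ F ψ := by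
    refine Finset.sum_congr rfl fun z hz => ?_
    rw [(ho z (Finset.mem_compl.1 hz)).1]
  rw [h2]
  exact hL ψ h1

end Pool.Agent.ANR.H60
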